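import Mathlib

/-! Arithmetic lemmas for the exceptional set bound. -/

namespace Pool.Agent.MP_f6f0d4_nt.H39

open Finset

/-- the divisor count splits into a smooth factor and a factor paid by `E`-th powers -/
lemma split (E : ℕ) (hE : 2 ≤ E) (m : ℕ) : m ≠ 0 →
    ∃ (l : List ℕ) (u D : ℕ), (∀ p ∈ l, p.Prime) ∧ l.prod ^ E ∣ m ∧
      (Nat.divisors m).card = u * D ∧ u ∈ Nat.smoothNumbers (E + 1) ∧ 1 ≤ D ∧
      D ≤ (2 * E) ^ l.length := by
  induction m using Nat.recOnPosPrimePosCoprime with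
  | zero => intro h; exact absurd rfl h
  | one =>
    intro _
    exact ⟨[], 1, 1, by simp, by simp, by simp, Nat.mem_smoothNumbers_of_lt one_pos (by omega),
      le_rfl, by simp⟩
  | prime_pow p e hp he =>
    intro _
    have hc : (Nat.divisors (p ^ e)).card = e + 1 := by
      rw [Nat.divisors_prime_pow hp]; simp
    by_cases h : e < E
    · exact ⟨[], e + 1, 1, by simp, by simp, by simp [hc],
        Nat.mem_smoothNumbers_of_lt (by omega) (by omega), le_rfl, by simp⟩
    · push Not at h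
      refine ⟨List.replicate (e / E) p, 1, e + 1, ?_, ?_, by simp [hc],
        Nat.mem_smoothNumbers_of_lt one_pos (by omega), by omega, ?_⟩
      · intro q hq
        rw [(List.mem_replicate.1 hq).2]; exact hp
      · rw [List.prod_replicate, ← pow_mul]
        exact pow_dvd_pow _ (Nat.div_mul_le_self e E)
      · rw [List.length_replicate]
        have h1 : 1 ≤ e / E := (Nat.le_div_iff_mul_le (by omega)).2 (by omega)
        obtain ⟨j, hj⟩ : ∃ j, e / E = j + 1 := ⟨e / E - 1, by omega⟩
        have h2 : e < E * (e / E + 1) := Nat.lt_mul_div_succ e (by omega)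
        have h3 : j < (2 * E) ^ j := Nat.lt_pow_self (by omega)
        rw [hj] at h2 ⊢
        rw [pow_succ]
        nlinarith
  | coprime a b ha hb hab iha ihb =>
    intro _
    obtain ⟨l1, u1, D1, a1, a2, a3, a4, a5, a6⟩ := iha (by omega)
    obtain ⟨l2, u2, D2, b1, b2, b3, b4, b5, b6⟩ := ihb (by omega)
    refine ⟨l1 ++ l2, u1 * u2, D1 * D2, ?_, ?_, ?_, Nat.mul_mem_smoothNumbers a4 b4,
      Nat.mul_pos a5 b5, ?_⟩
    · intro p hp
      rcases List.mem_append.1 hp with h | h
      exacts [a1 p h, b1 p h]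
    · rw [List.prod_append, mul_pow]; exact mul_dvd_mul a2 b2
    · rw [hab.card_divisors_mul, a3, b3]; ring
    · rw [List.length_append, pow_add]; exact Nat.mul_le_mul a6 b6

/-- number of smooth numbers up to `X` -/
lemma smooth_card (E X : ℕ) :
    (Nat.smoothNumbersUpTo X (E + 1)).card ≤ (Nat.log 2 X + 1) ^ Nat.primeCounting E := by
  classical
  have hcard : (Fintype.piFinset fun _ : Nat.primesLE E => range (Nat.log 2 X + 1)).card =
      (Nat.log 2 X + 1) ^ Nat.primeCounting E := by
    simp [Fintype.card_piFinset]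
  rw [← hcard]
  refine card_le_card_of_injOn (fun u p => u.factorization p.1) ?_ ?_
  · intro u hu
    have hu' := Nat.mem_smoothNumbersUpTo.1 (mem_coe.1 hu)
    refine mem_coe.2 (Fintype.mem_piFinset.2 fun p => mem_range.2 ?_)
    have hp := Nat.prime_of_mem_primesLE p.2
    have h0 : u ≠ 0 := hu'.2.1
    have h1 : p.1 ^ u.factorization p.1 ≤ u := Nat.le_of_dvd (Nat.pos_of_ne_zero h0)
      (Nat.ordProj_dvd u p.1)
    have h2 : 2 ^ u.factorization p.1 ≤ X :=
      (Nat.pow_le_pow_left hp.two_le _).trans (h1.trans hu'.1)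
    exact Nat.lt_succ_of_le (Nat.le_log_of_pow_le (by norm_num) h2)
  · intro u hu v hv huv
    have hu' := Nat.mem_smoothNumbersUpTo.1 (mem_coe.1 hu)
    have hv' := Nat.mem_smoothNumbersUpTo.1 (mem_coe.1 hv)
    refine Nat.eq_of_factorization_eq hu'.2.1 hv'.2.1 fun p => ?_
    by_cases hp : p ∈ Nat.primesLE E
    · exact congrFun huv ⟨p, hp⟩
    · have key : ∀ w, w ∈ Nat.smoothNumbers (E + 1) → w.factorization p = 0 := by
        intro w hw
        by_contra h
        have hpp : p.Prime := by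
          by_contra h'
          exact h (Nat.factorization_eq_zero_of_not_prime w h')
        have hd : p ∣ w := Nat.dvd_of_factorization_pos h
        have := Nat.mem_smoothNumbers'.1 hw p hpp hd
        exact hp (Nat.mem_primesLE.2 ⟨by omega, hpp⟩)
      rw [key u hu'.2, key v hv'.2]

/-- multiples of `q` among `k + 1` consecutive integers -/
lemma mult_card (n k q : ℕ) :
    ((range (k + 1)).filter fun i => q ∣ n + i).card ≤ k / q + 1 := by
  rw [← card_range (k / q + 1)]
  refine card_le_card_of_injOn (fun i => i / q) ?_ ?_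
  · intro i hi
    have := mem_range.1 (mem_filter.1 (mem_coe.1 hi)).1
    simp only [coe_range, Set.mem_Iio]
    exact Nat.lt_succ_of_le (Nat.div_le_div_right (by omega))
  · intro i hi j hj hij
    have h1 := (mem_filter.1 (mem_coe.1 hi)).2
    have h2 := (mem_filter.1 (mem_coe.1 hj)).2
    have h3 : n + i ≡ n + j [MOD q] :=
      ((Nat.modEq_zero_iff_dvd).2 h1).trans ((Nat.modEq_zero_iff_dvd).2 h2).symm
    have h4 : i % q = j % q := Nat.ModEq.add_left_cancel' n h3
    have h5 := Nat.div_add_mod i q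
    have h6 := Nat.div_add_mod j q
    simp only at hij
    rw [hij, h4] at h5
    omega

/-- members of a run divisible by the square of a small prime -/
lemma bad_card (n k : ℕ) (hk : 2 ≤ k) :
    (((range (k + 1)).filter fun i => ∃ p ∈ Nat.primesLE k, p ^ 2 ∣ n + i).card : ℝ) ≤
      3 / 4 * k + Nat.primeCounting k := by
  have h1 : ((range (k + 1)).filter fun i => ∃ p ∈ Nat.primesLE k, p ^ 2 ∣ n + i) ⊆
      (Nat.primesLE k).biUnion fun p => (range (k + 1)).filter fun i => p ^ 2 ∣ n + i := by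
    intro i hi
    obtain ⟨h, p, hp, hd⟩ := mem_filter.1 hi
    exact mem_biUnion.2 ⟨p, hp, mem_filter.2 ⟨h, hd⟩⟩
  have h2 := (card_le_card h1).trans card_biUnion_le
  have h3 : ∑ p ∈ Nat.primesLE k, (((range (k + 1)).filter fun i => p ^ 2 ∣ n + i).card : ℝ) ≤
      ∑ p ∈ Nat.primesLE k, ((k : ℝ) * ((p : ℝ) ^ 2)⁻¹ + 1) := by
    refine sum_le_sum fun p hp => ?_
    have := mult_card n k (p ^ 2)
    have h4 : ((k / p ^ 2 : ℕ) : ℝ) ≤ (k : ℝ) / ((p ^ 2 : ℕ) : ℝ) := Nat.cast_div_le
    have h5 : ((((range (k + 1)).filter fun i => p ^ 2 ∣ n + i).card : ℕ) : ℝ) ≤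
        ((k / p ^ 2 + 1 : ℕ) : ℝ) := Nat.cast_le.2 this
    push_cast at h4 h5
    rw [div_eq_mul_inv] at h4
    linarith
  have h4 : ∑ p ∈ Nat.primesLE k, ((p : ℝ) ^ 2)⁻¹ ≤ 3 / 4 := by
    have h5 : Nat.primesLE k ⊆ insert 2 (Ioc 2 k) := by
      intro p hp
      have a := Nat.two_le_of_mem_primesLE hp
      have b := Nat.le_of_mem_primesLE hp
      simp only [mem_insert, mem_Ioc]
      omega
    have h6 := sum_le_sum_of_subset_of_nonneg (f := fun p : ℕ => ((p : ℝ) ^ 2)⁻¹) h5
      (fun _ _ _ => by positivity)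
    rw [sum_insert (by simp)] at h6
    have h7 := sum_Ioc_inv_sq_le_sub (α := ℝ) (k := 2) (n := k) (by norm_num) hk
    have h8 : (0 : ℝ) ≤ (k : ℝ)⁻¹ := by positivity
    push_cast at h6 h7
    norm_num at h6 h7 ⊢
    linarith
  rw [sum_add_distrib, ← mul_sum, sum_const, Nat.primesLE_card_eq_primeCounting] at h3
  have h5 : (((range (k + 1)).filter fun i => ∃ p ∈ Nat.primesLE k, p ^ 2 ∣ n + i).card : ℝ) ≤
      ∑ p ∈ Nat.primesLE k, (((range (k + 1)).filter fun i => p ^ 2 ∣ n + i).card : ℝ) := by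
    exact_mod_cast h2
  have h6 : (0 : ℝ) ≤ k := by positivity
  simp only [nsmul_eq_mul, mul_one] at h3
  nlinarith

/-- few divisors when no small prime square divides -/
lemma divisors_le (m y W : ℕ) (hm : m ≠ 0) (hy : 2 ≤ y) (hW : m ≤ y ^ W)
    (h : ∀ p, p.Prime → p ≤ y → ¬ p ^ 2 ∣ m) : (Nat.divisors m).card ≤ 2 ^ (y + W) := by
  rw [Nat.card_divisors hm]
  have a : ∏ p ∈ m.primeFactors, (m.factorization p + 1) ≤
      2 ^ ∑ p ∈ m.primeFactors, m.factorization p := by
    rw [← prod_pow_eq_pow_sum]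
    exact prod_le_prod' fun p _ => Nat.lt_two_pow_self
  refine a.trans (Nat.pow_le_pow_right (by norm_num) ?_)
  rw [← sum_filter_add_sum_filter_not m.primeFactors (fun p => p ≤ y)]
  refine Nat.add_le_add ?_ ?_
  · have b : ∑ p ∈ m.primeFactors with p ≤ y, m.factorization p ≤
        (m.primeFactors.filter fun p => p ≤ y).card • 1 := by
      refine sum_le_card_nsmul _ _ _ fun p hp => ?_
      obtain ⟨p1, p2⟩ := mem_filter.1 hp
      have hp' := Nat.prime_of_mem_primeFactors p1
      by_contra c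
      exact h p hp' p2 ((hp'.pow_dvd_iff_le_factorization hm).2 (by omega))
    have c : (m.primeFactors.filter fun p => p ≤ y).card ≤ (Icc 1 y).card := by
      refine card_le_card fun p hp => ?_
      obtain ⟨p1, p2⟩ := mem_filter.1 hp
      exact mem_Icc.2 ⟨(Nat.prime_of_mem_primeFactors p1).pos, p2⟩
    simp at b c
    omega
  · have b : y ^ ∑ p ∈ m.primeFactors with ¬ p ≤ y, m.factorization p ≤
        ∏ p ∈ m.primeFactors with ¬ p ≤ y, p ^ m.factorization p := by
      rw [← prod_pow_eq_pow_sum]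
      refine prod_le_prod' fun p hp => Nat.pow_le_pow_left ?_ _
      have := (mem_filter.1 hp).2
      omega
    have c : ∏ p ∈ m.primeFactors with ¬ p ≤ y, p ^ m.factorization p ≤
        ∏ p ∈ m.primeFactors, p ^ m.factorization p :=
      prod_le_prod_of_subset_of_one_le' (filter_subset _ _) fun p hp _ =>
        Nat.one_le_pow _ _ (Nat.prime_of_mem_primeFactors hp).pos
    have d : ∏ p ∈ m.primeFactors, p ^ m.factorization p = m :=
      Nat.prod_factorization_pow_eq_self hm
    exact (Nat.pow_le_pow_iff_right (by omega)).1 (b.trans (c.trans (d.trans_le hW)))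

/-- a long list of large numbers has a block with a small product -/
lemma block (k T : ℕ) (hk : 1 ≤ k) (L : ℕ) : ∀ l : List ℕ, (∀ p ∈ l, k ≤ p) →
    (L + 1) * T ≤ l.length → ∃ u, u ∣ l.prod ∧ k ^ T ≤ u ∧ u ^ (L + 1) ≤ l.prod := by
  have base : ∀ l : List ℕ, (∀ p ∈ l, k ≤ p) → T ≤ l.length → k ^ T ≤ l.prod := by
    intro l hl hT
    exact (Nat.pow_le_pow_right hk hT).trans (List.pow_card_le_prod l k hl)
  induction L with
  | zero =>
    intro l hl hT
    exact ⟨l.prod, dvd_rfl, base l hl (by omega), by simp⟩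
  | succ L ih =>
    intro l hl hT
    have e : (l.take T).prod * (l.drop T).prod = l.prod := List.prod_take_mul_prod_drop l T
    have hT' : (L + 1) * T + T ≤ l.length := by nlinarith
    obtain ⟨v, v1, v2, v3⟩ := ih (l.drop T) (fun p hp => hl p (List.mem_of_mem_drop hp))
      (by rw [List.length_drop]; omega)
    have u2 := base (l.take T) (fun p hp => hl p (List.mem_of_mem_take hp))
      (by rw [List.length_take]; omega)
    rcases le_total (l.take T).prod v with h | h
    · refine ⟨(l.take T).prod, Dvd.intro _ e, u2, ?_⟩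
      rw [← e, pow_succ']
      exact Nat.mul_le_mul_left _ ((Nat.pow_le_pow_left h _).trans v3)
    · refine ⟨v, v1.trans (Dvd.intro_left _ e), v2, ?_⟩
      rw [← e, pow_succ']
      exact Nat.mul_le_mul h v3

/-- a subfamily whose product just passes a given size -/
lemma subprod {ι : Type*} [DecidableEq ι] (t : ι → ℝ) (X Z : ℝ) (hX : 1 ≤ X) (hZ : 1 ≤ Z)
    (G : Finset ι) : (∀ i ∈ G, 0 ≤ t i ∧ t i ≤ Z) → X ≤ ∏ i ∈ G, t i →
    ∃ S ⊆ G, X ≤ ∏ i ∈ S, t i ∧ ∏ i ∈ S, t i ≤ X * Z := by
  induction G using Finset.induction_on with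
  | empty =>
    intro _ h
    refine ⟨∅, subset_rfl, h, ?_⟩
    rw [prod_empty]
    nlinarith
  | insert a G ha ih =>
    intro h1 h2
    by_cases h : X ≤ ∏ i ∈ G, t i
    · obtain ⟨S, s1, s2⟩ := ih (fun i hi => h1 i (mem_insert_of_mem hi)) h
      exact ⟨S, s1.trans (subset_insert _ _), s2⟩
    · refine ⟨insert a G, subset_rfl, h2, ?_⟩
      rw [prod_insert ha, mul_comm]
      have := h1 a (mem_insert_self _ _)
      push Not at h
      exact mul_le_mul h.le this.2 this.1 (by linarith)

/-- no run is longer than `N` -/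
lemma short (N n : ℕ) (hN : 6 ≤ N) (h1 : 1 ≤ n) (h2 : n ≤ N) :
    ¬ Set.InjOn (fun m : ℕ => (Nat.divisors m).card) (Set.Icc n (n + N)) := by
  intro h
  have hd : ∀ m, m ≤ 2 * N → (Nat.divisors m).card ≤ N := by
    intro m hm
    have hs : Nat.divisors m ⊆ insert m (insert (m / 2) (Icc 1 (m / 3))) := by
      intro x hx
      obtain ⟨⟨c, hc⟩, h0⟩ := Nat.mem_divisors.1 hx
      simp only [mem_insert, mem_Icc]
      have hx0 : x ≠ 0 := by rintro rfl; simp at hc; exact h0 hc
      rcases (by omega : c = 0 ∨ c = 1 ∨ c = 2 ∨ 3 ≤ c) with rfl | rfl | rfl | h3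
      · simp at hc; exact absurd hc h0
      · omega
      · omega
      · have : x * 3 ≤ m := hc ▸ Nat.mul_le_mul_left x h3
        omega
    have a := card_le_card hs
    have b := card_insert_le m (insert (m / 2) (Icc 1 (m / 3)))
    have c := card_insert_le (m / 2) (Icc 1 (m / 3))
    rw [Nat.card_Icc] at c
    omega
  have : (Icc n (n + N)).card ≤ (Icc 1 N).card := by
    refine card_le_card_of_injOn (fun m => (Nat.divisors m).card) ?_ (by simpa using h)
    intro m hm
    have hm' := mem_Icc.1 (mem_coe.1 hm)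
    simp only [coe_Icc, Set.mem_Icc]
    refine ⟨card_pos.2 ⟨1, Nat.one_mem_divisors.2 (by omega)⟩, hd m (by omega)⟩
  simp at this
  omega

end Pool.Agent.MP_f6f0d4_nt.H39
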