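import Pool.Agent.MP_f6f0d4_nt.H39.Core

/-! The choice of parameters. -/

namespace Pool.Agent.MP_f6f0d4_nt.H39

open Finset Filter Real

lemma ev_pi : ∀ᶠ k : ℕ in atTop, 8 * Nat.primeCounting k ≤ k := by
  have a := tendsto_natCast_atTop_atTop (R := ℝ).eventually
    (Chebyshev.eventually_primeCounting_le (ε := 1) one_pos)
  have b := (tendsto_log_atTop.comp (tendsto_natCast_atTop_atTop (R := ℝ))).eventually_ge_atTop 32
  filter_upwards [a, b] with k h1 h2
  rw [Nat.floor_natCast] at h1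
  have h3 : (32 : ℝ) ≤ log k := h2
  have h4 : log 4 ≤ 3 := by
    have := log_le_sub_one_of_pos (by norm_num : (0 : ℝ) < 4)
    linarith
  have h5 : (0 : ℝ) ≤ k := by positivity
  rw [le_div_iff₀ (by linarith)] at h1
  have h6 : (0 : ℝ) ≤ Nat.primeCounting k := by positivity
  have : (8 : ℝ) * Nat.primeCounting k ≤ k := by nlinarith
  exact_mod_cast this

lemma ev_sq (Z : ℝ) : ∀ᶠ k : ℕ in atTop, Z * (k + 1) ≤ (k : ℝ) ^ 2 := by
  filter_upwards [(tendsto_natCast_atTop_atTop (R := ℝ)).eventually_ge_atTop (2 * |Z| + 1)]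
    with k h
  have := le_abs_self Z
  have := abs_nonneg Z
  nlinarith

lemma ev_par (K : ℕ) : ∀ᶠ N : ℕ in atTop, ∃ y W : ℕ, K ≤ y ∧ y ≤ N ∧ 2 * N ≤ y ^ W ∧
    ((y + W + 1 : ℕ) : ℝ) ≤ 3 * log N / log (log N) := by
  have t : Tendsto (fun N : ℕ => log (N : ℝ)) atTop atTop :=
    tendsto_log_atTop.comp tendsto_natCast_atTop_atTop
  have a := t.eventually ((isLittleO_log_rpow_atTop (r := 1 / 2) (by norm_num)).bound
    (c := 1 / 6) (by norm_num))
  have b := (tendsto_log_atTop.comp t).eventually_ge_atTop 2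
  have c := t.eventually_ge_atTop (((K : ℝ) + 1) ^ 2)
  filter_upwards [a, b, c, eventually_ge_atTop 2] with N h1 h2 h3 h4
  have hN : (2 : ℝ) ≤ N := by exact_mod_cast h4
  set x := log (N : ℝ) with hx
  have h2' : 2 ≤ log x := h2
  have hK : (0 : ℝ) ≤ K := by positivity
  have x1 : 1 ≤ x := by nlinarith
  have s1 : (K : ℝ) + 1 ≤ √x := le_sqrt_of_sq_le h3
  have ss : √x * √x = x := mul_self_sqrt (by linarith)
  rw [← sqrt_eq_rpow, norm_of_nonneg (by linarith), norm_of_nonneg (by positivity)] at h1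
  have y1 : √x ≤ (⌈√x⌉₊ : ℝ) := Nat.le_ceil _
  have y2 : (⌈√x⌉₊ : ℝ) < √x + 1 := Nat.ceil_lt_add_one (by positivity)
  have ly : log x / 2 ≤ log (⌈√x⌉₊ : ℝ) := by
    rw [← log_sqrt (by linarith)]
    exact log_le_log (by linarith) y1
  have w1 : 2 * (x + 1) / log x ≤ (⌈2 * (x + 1) / log x⌉₊ : ℝ) := Nat.le_ceil _
  have w2 : (⌈2 * (x + 1) / log x⌉₊ : ℝ) < 2 * (x + 1) / log x + 1 :=
    Nat.ceil_lt_add_one (by positivity)
  refine ⟨⌈√x⌉₊, ⌈2 * (x + 1) / log x⌉₊, ?_, ?_, ?_, ?_⟩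
  · have : (K : ℝ) ≤ ⌈√x⌉₊ := by linarith
    exact_mod_cast this
  · refine Nat.ceil_le.2 ?_
    have := log_le_sub_one_of_pos (by linarith : (0 : ℝ) < N)
    nlinarith
  · have e : log (2 * N : ℝ) ≤ log ((⌈√x⌉₊ : ℝ) ^ ⌈2 * (x + 1) / log x⌉₊) := by
      rw [log_pow, log_mul (by norm_num) (by linarith)]
      have l2 : log 2 ≤ 1 := by
        have := log_le_sub_one_of_pos (by norm_num : (0 : ℝ) < 2)
        linarith
      have e1 : 2 * (x + 1) / log x * (log x / 2) = x + 1 := by field_simp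
      have e2 := mul_le_mul w1 ly (by linarith) (by positivity)
      linarith
    rw [log_le_log_iff (by linarith) (pow_pos (by linarith) _)] at e
    exact_mod_cast e
  · push_cast
    have e1 : 2 * (x + 1) / log x ≤ 2 * x / log x + 1 := by
      rw [div_add_one (by linarith), div_le_div_iff_of_pos_right (by linarith)]
      linarith
    have e2 : √x + 5 ≤ x / log x := by
      rw [le_div_iff₀ (by linarith)]
      nlinarith
    have e3 : 3 * x / log x = 2 * x / log x + x / log x := by ring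
    linarith

theorem main (ε : ℝ) (hε : 0 < ε) : ∃ A : ℕ, ∀ᶠ N : ℕ in atTop, ∀ E k : ℕ, 2 ≤ E →
    (E : ℝ) ^ A * (3 * log N / log (log N)) ^ Nat.primeCounting E ≤ k →
    ∀ S : Finset ℕ, (∀ n ∈ S, 1 ≤ n ∧ n ≤ N ∧
      Set.InjOn (fun m : ℕ => (Nat.divisors m).card) (Set.Icc n (n + k))) →
    (S.card : ℝ) ≤ 6 * (N : ℝ) ^ ((1 + ε) / E) := by
  obtain ⟨L, hL⟩ := exists_nat_ge (5 / ε + 5)
  have hL0 : (0 : ℝ) < (L : ℝ) + 1 := by positivity
  have hε5 : 0 < 5 / ε := by positivity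
  have d1 : 5 / ((L : ℝ) + 1) ≤ ε := by
    rw [div_le_iff₀ hL0]
    have : 5 / ε * ε = 5 := by field_simp
    nlinarith
  have d2 : 5 / ((L : ℝ) + 1) ≤ 1 := by
    rw [div_le_one hL0]
    linarith
  obtain ⟨K, hK⟩ := eventually_atTop.1
    (ev_pi.and (ev_sq (∑' t : ℕ, ((t : ℝ) ^ (1 + 1 / ((L : ℝ) + 1)))⁻¹)))
  refine ⟨2 * ((L + 1) * (2 * (L + 1))) + 4, ?_⟩
  filter_upwards [ev_par (K + 2), eventually_ge_atTop 6] with N ⟨y, W, p1, p2, p3, p4⟩ hN E k hE
    hk S hS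
  have hN1 : (1 : ℝ) ≤ N := by exact_mod_cast (by omega : 1 ≤ N)
  have hE2 : (2 : ℝ) ≤ E := by exact_mod_cast hE
  by_cases hkN : k ≤ N
  swap
  · have : S = ∅ := by
      refine eq_empty_of_forall_notMem fun n hn => ?_
      exact short N n hN (hS n hn).1 (hS n hn).2.1
        ((hS n hn).2.2.mono (Set.Icc_subset_Icc_right (by omega)))
    rw [this, card_empty, Nat.cast_zero]
    positivity
  set M := (L + 1) * (2 * (L + 1)) with hM
  have q1 : E ^ (2 * M + 4) * (y + W + 1) ^ Nat.primeCounting E ≤ k := by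
    have := (mul_le_mul_of_nonneg_left (pow_le_pow_left₀ (by positivity) p4 (Nat.primeCounting E))
      (by positivity : (0 : ℝ) ≤ (E : ℝ) ^ (2 * M + 4))).trans hk
    exact_mod_cast this
  have q2 : 1 ≤ Nat.primeCounting E := (by decide : 1 ≤ Nat.primeCounting 2).trans
    (Nat.monotone_primeCounting hE)
  have q3 : y + W + 1 ≤ (y + W + 1) ^ Nat.primeCounting E := Nat.le_self_pow (by omega) _
  have q4 : (2 * E) ^ M ≤ E ^ (2 * M) := by
    rw [pow_mul E 2 M]
    exact Nat.pow_le_pow_left (by nlinarith : 2 * E ≤ E ^ 2) M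
  have q5 : 16 ≤ E ^ 4 := Nat.pow_le_pow_left hE 4
  have q6 : 1 ≤ (2 * E) ^ M := Nat.one_le_pow _ _ (by omega)
  have q7 : 16 * ((2 * E) ^ M * (y + W + 1) ^ Nat.primeCounting E) ≤ k := by
    refine le_trans ?_ q1
    rw [pow_add, ← mul_assoc, mul_comm 16]
    exact Nat.mul_le_mul_right _ (Nat.mul_le_mul q4 q5)
  have q8 : y + W + 1 ≤ (2 * E) ^ M * (y + W + 1) ^ Nat.primeCounting E :=
    q3.trans (Nat.le_mul_of_pos_left _ q6)
  have c := core E L y W N k hE (by omega) (by omega) hkN p3 (hK k (by omega)).1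
    (by rw [← hM]; omega)
    (hK k (by omega)).2 S hS
  refine c.trans ?_
  rw [mul_rpow (by norm_num) (by linarith)]
  have r1 : (2 : ℝ) ^ ((1 + 5 / ((L : ℝ) + 1)) / E) ≤ 2 := rpow_le_self_of_one_le (by norm_num)
    (by rw [div_le_one (by linarith)]; linarith)
  have r2 : (N : ℝ) ^ ((1 + 5 / ((L : ℝ) + 1)) / E) ≤ (N : ℝ) ^ ((1 + ε) / E) :=
    rpow_le_rpow_of_exponent_le hN1 (div_le_div_of_nonneg_right (by linarith) (by linarith))
  have r3 := mul_le_mul r1 r2 (by positivity) (by norm_num)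
  linarith

end Pool.Agent.MP_f6f0d4_nt.H39
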