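import Pool.Agent.MP_f6f0d4_nt.H39.Arith

/-! A long run is determined by a family of `E`-th powers dividing its members. -/

namespace Pool.Agent.MP_f6f0d4_nt.H39

open Finset

/-- many members of a long run have a large but not too large `E`-th power divisor -/
lemma many (E L T y W N k n : ℕ) (hE : 2 ≤ E) (hy : 2 ≤ y) (hyk : y ≤ k) (hkN : k ≤ N)
    (hW : 2 * N ≤ y ^ W) (h1 : 1 ≤ n) (hn : n ≤ N) (hπ : 8 * Nat.primeCounting k ≤ k)
    (h2 : 8 * ((2 * E) ^ ((L + 1) * T) * (y + W + 1) ^ Nat.primeCounting E + W) ≤ k)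
    (hinj : Set.InjOn (fun m : ℕ => (Nat.divisors m).card) (Set.Icc n (n + k))) :
    ∃ G ⊆ range (k + 1), W ≤ G.card ∧ ∃ t : ℕ → ℕ, ∀ i ∈ G, k ^ T ≤ t i ∧ t i ^ E ∣ n + i ∧
      t i ^ ((L + 1) * E) ≤ 2 * N ∧ ∀ p, p.Prime → p ∣ t i → k < p := by
  classical
  have hk2 : 2 ≤ k := hy.trans hyk
  choose l u D a1 a2 a3 a4 a5 a6 using fun i : ℕ => split E hE (n + i) (by omega)
  set Good := (range (k + 1)).filter fun i => ¬ ∃ p ∈ Nat.primesLE k, p ^ 2 ∣ n + i with hGood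
  have hG : k ≤ 8 * Good.card := by
    have e := card_filter_add_card_filter_not (s := range (k + 1))
      (fun i => ∃ p ∈ Nat.primesLE k, p ^ 2 ∣ n + i)
    rw [card_range, ← hGood] at e
    have b := bad_card n k hk2
    have e' := congrArg (Nat.cast : ℕ → ℝ) e
    have c : (8 : ℝ) * Nat.primeCounting k ≤ k := by exact_mod_cast hπ
    push_cast at e'
    have : (k : ℝ) ≤ 8 * Good.card := by linarith
    exact_mod_cast this
  have hS : (Good.filter fun i => (l i).length < (L + 1) * T).card ≤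
      (2 * E) ^ ((L + 1) * T) * (y + W + 1) ^ Nat.primeCounting E := by
    have : (Good.filter fun i => (l i).length < (L + 1) * T).card ≤
        (Icc 1 ((2 * E) ^ ((L + 1) * T)) ×ˢ Nat.smoothNumbersUpTo (2 ^ (y + W)) (E + 1)).card := by
      refine card_le_card_of_injOn (fun i => (D i, u i)) ?_ ?_
      · intro i hi
        obtain ⟨hi1, hi2⟩ := mem_filter.1 (mem_coe.1 hi)
        have hi3 := mem_range.1 (mem_filter.1 hi1).1
        refine mem_coe.2 (mem_product.2 ⟨mem_Icc.2 ⟨a5 i, (a6 i).trans ?_⟩,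
          Nat.mem_smoothNumbersUpTo.2 ⟨?_, a4 i⟩⟩)
        · exact Nat.pow_le_pow_right (by omega) hi2.le
        · have b := divisors_le (n + i) y W (by omega) hy (by omega) fun p hp hpy hd =>
            (mem_filter.1 hi1).2 ⟨p, Nat.mem_primesLE.2 ⟨by omega, hp⟩, hd⟩
          have c : u i ≤ u i * D i := Nat.le_mul_of_pos_right _ (a5 i)
          have := a3 i
          show u i ≤ 2 ^ (y + W)
          omega
      · intro i hi j hj hij
        have hi3 := mem_range.1 (mem_filter.1 (mem_filter.1 (mem_coe.1 hi)).1).1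
        have hj3 := mem_range.1 (mem_filter.1 (mem_filter.1 (mem_coe.1 hj)).1).1
        have e := Prod.mk.inj hij
        have : n + i = n + j := hinj ⟨by omega, by omega⟩ ⟨by omega, by omega⟩ (by
          show (Nat.divisors (n + i)).card = (Nat.divisors (n + j)).card
          rw [a3 i, a3 j, e.1, e.2])
        omega
    rw [card_product, Nat.card_Icc, Nat.add_sub_cancel] at this
    have b := smooth_card E (2 ^ (y + W))
    rw [Nat.log_pow (by norm_num)] at b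
    exact this.trans (Nat.mul_le_mul_left _ b)
  have e := card_filter_add_card_filter_not (s := Good) (fun i => (l i).length < (L + 1) * T)
  refine ⟨Good.filter fun i => ¬ (l i).length < (L + 1) * T,
    (filter_subset _ _).trans (filter_subset _ _), by omega, ?_⟩
  have key : ∀ i, ∃ t : ℕ, i ∈ (Good.filter fun i => ¬ (l i).length < (L + 1) * T) →
      k ^ T ≤ t ∧ t ^ E ∣ n + i ∧ t ^ ((L + 1) * E) ≤ 2 * N ∧ ∀ p, p.Prime → p ∣ t → k < p := by
    intro i
    by_cases hi : i ∈ (Good.filter fun i => ¬ (l i).length < (L + 1) * T)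
    swap
    · exact ⟨0, fun h => absurd h hi⟩
    obtain ⟨hi1, hi2⟩ := mem_filter.1 hi
    obtain ⟨hi3, hi4⟩ := mem_filter.1 hi1
    have hi5 := mem_range.1 hi3
    have big : ∀ p, p.Prime → p ∣ (l i).prod → k < p := by
      intro p hp hd
      by_contra h
      refine hi4 ⟨p, Nat.mem_primesLE.2 ⟨by omega, hp⟩, ?_⟩
      exact (pow_dvd_pow p hE).trans ((pow_dvd_pow_of_dvd hd E).trans (a2 i))
    obtain ⟨t, t1, t2, t3⟩ := block k T (by omega) L (l i)
      (fun p hp => (big p (a1 i p hp) (List.dvd_prod hp)).le) (by omega)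
    refine ⟨t, fun _ => ⟨t2, (pow_dvd_pow_of_dvd t1 E).trans (a2 i), ?_,
      fun p hp hd => big p hp (hd.trans t1)⟩⟩
    have c := Nat.le_of_dvd (by omega) (a2 i)
    have d := Nat.pow_le_pow_left t3 E
    rw [← pow_mul] at d
    omega
  choose t ht using key
  exact ⟨t, ht⟩

/-- the family of moduli attached to a run -/
lemma family (E L T y W N k n : ℕ) (hE : 2 ≤ E) (hT : 1 ≤ T) (hy : 2 ≤ y) (hyk : y ≤ k)
    (hkN : k ≤ N) (hW : 2 * N ≤ y ^ W) (h1 : 1 ≤ n) (hn : n ≤ N)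
    (hπ : 8 * Nat.primeCounting k ≤ k)
    (h2 : 8 * ((2 * E) ^ ((L + 1) * T) * (y + W + 1) ^ Nat.primeCounting E + W) ≤ k)
    (hinj : Set.InjOn (fun m : ℕ => (Nat.divisors m).card) (Set.Icc n (n + k))) :
    ∃ τ : Fin (k + 1) → ℕ, (∀ i, τ i ∈ insert 1 (Icc (k ^ T) (2 * N))) ∧
      ((∏ i, τ i : ℕ) : ℝ) ≤ (2 * N : ℝ) ^ ((1 + 1 / ((L : ℝ) + 1)) / E) ∧
      N ≤ (∏ i, τ i) ^ E ∧ (∀ i, τ i ^ E ∣ n + i) ∧ ∀ i p, p.Prime → p ∣ τ i → k < p := by
  classical
  obtain ⟨G, hG, hR, t, ht⟩ := many E L T y W N k n hE hy hyk hkN hW h1 hn hπ h2 hinj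
  have hN : (1 : ℝ) ≤ N := by exact_mod_cast h1.trans hn
  have hE0 : (0 : ℝ) < E := by exact_mod_cast (by omega : 0 < E)
  have hLE : (L + 1) * E ≠ 0 := by positivity
  have t2 : ∀ i ∈ G, y ≤ t i := fun i hi =>
    hyk.trans ((Nat.le_self_pow (by omega) k).trans (ht i hi).1)
  obtain ⟨S, s1, s2, s3⟩ := subprod (fun i => (t i : ℝ)) ((N : ℝ) ^ ((E : ℝ)⁻¹))
    ((2 * N : ℝ) ^ ((((L + 1) * E : ℕ) : ℝ)⁻¹)) (Real.one_le_rpow hN (by positivity))
    (Real.one_le_rpow (by linarith) (by positivity)) G (by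
      intro i hi
      refine ⟨by positivity, ?_⟩
      rw [Real.le_rpow_inv_iff_of_pos (by positivity) (by positivity) (by positivity),
        Real.rpow_natCast]
      exact_mod_cast (ht i hi).2.2.1) (by
      have a : y ^ G.card ≤ ∏ i ∈ G, t i := pow_card_le_prod G t y t2
      have c : y ^ W ≤ y ^ G.card := Nat.pow_le_pow_right (by omega) hR
      have d : (N : ℝ) ≤ ((∏ i ∈ G, t i : ℕ) : ℝ) := by exact_mod_cast (by omega)
      have e : (N : ℝ) ^ ((E : ℝ)⁻¹) ≤ N := Real.rpow_le_self_of_one_le hN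
        (inv_le_one_of_one_le₀ (by exact_mod_cast (by omega : 1 ≤ E)))
      push_cast at d
      linarith)
  have hp : (∏ i : Fin (k + 1), if i.val ∈ S then t i else 1) = ∏ i ∈ S, t i := by
    rw [Fin.prod_univ_eq_prod_range (fun i => if i ∈ S then t i else 1) (k + 1), prod_ite_mem,
      inter_eq_right.2 (s1.trans hG)]
  refine ⟨fun i => if i.val ∈ S then t i else 1, ?_, ?_, ?_, ?_, ?_⟩
  · intro i
    by_cases h : i.val ∈ S
    · simp only [h, if_true]
      exact mem_insert_of_mem (mem_Icc.2 ⟨(ht i (s1 h)).1,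
        (Nat.le_self_pow hLE _).trans (ht i (s1 h)).2.2.1⟩)
    · simp [h]
  · rw [hp]
    push_cast at s3 ⊢
    refine s3.trans ?_
    have e : (1 + 1 / ((L : ℝ) + 1)) / E = (E : ℝ)⁻¹ + (((L : ℝ) + 1) * E)⁻¹ := by
      field_simp
    rw [e, Real.rpow_add (by linarith)]
    exact mul_le_mul_of_nonneg_right
      (Real.rpow_le_rpow (by linarith) (by linarith) (by positivity)) (by positivity)
  · rw [hp]
    rw [Real.rpow_inv_le_iff_of_pos (by positivity) (prod_nonneg fun _ _ => by positivity) hE0,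
      Real.rpow_natCast] at s2
    exact_mod_cast s2
  · intro i
    by_cases h : i.val ∈ S
    · simp only [h, if_true]
      exact (ht i (s1 h)).2.1
    · simp [h]
  · intro i p hp
    by_cases h : i.val ∈ S
    · simp only [h, if_true]
      exact (ht i (s1 h)).2.2.2 p hp
    · simp only [h, if_false]
      intro hd
      exact absurd (Nat.dvd_one.1 hd) hp.one_lt.ne'

/-- the family determines the starting point -/
lemma unique (E N k n n' : ℕ) (hE : 2 ≤ E) (τ : Fin (k + 1) → ℕ) (h1 : 1 ≤ n) (hle : n ≤ n')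
    (hn : n' ≤ N) (hN : N ≤ (∏ i, τ i) ^ E) (a : ∀ i, τ i ^ E ∣ n + i)
    (b : ∀ i, τ i ^ E ∣ n' + i) (c : ∀ i p, p.Prime → p ∣ τ i → k < p) : n = n' := by
  have hd : (∏ i, τ i) ^ E ∣ n' - n := by
    rw [← prod_pow]
    refine Finset.prod_dvd_of_isRelPrime ?_ ?_
    · intro i _ j _ hij
      refine Nat.coprime_iff_isRelPrime.1 (Nat.Coprime.pow E E ?_)
      refine Nat.Coprime.symm (Nat.coprime_of_dvd fun p hp hj hi => ?_)
      have hE0 : E ≠ 0 := by omega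
      have d1 : p ∣ n + i := hi.trans ((dvd_pow_self _ hE0).trans (a i))
      have d2 : p ∣ n + j := hj.trans ((dvd_pow_self _ hE0).trans (a j))
      have hk := c i p hp hi
      have h3 : n + i ≡ n + j [MOD p] :=
        ((Nat.modEq_zero_iff_dvd).2 d1).trans ((Nat.modEq_zero_iff_dvd).2 d2).symm
      have h4 : i.val ≡ j.val [MOD p] := Nat.ModEq.add_left_cancel' n h3
      exact hij (Fin.ext (Nat.ModEq.eq_of_lt_of_lt h4 (by omega) (by omega)))
    · intro i _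
      have := Nat.dvd_sub (b i) (a i)
      rwa [Nat.add_sub_add_right] at this
  have := Nat.eq_zero_of_dvd_of_lt hd (by omega)
  omega

/-- Rankin's trick for families -/
lemma rankin (K : ℕ) (B : Finset ℕ) (hB : ∀ t ∈ B, 0 < t) (a Y : ℝ) (ha : 0 ≤ a) (hY : 0 ≤ Y) :
    (((Fintype.piFinset fun _ : Fin K => B).filter
      fun τ => ((∏ i, τ i : ℕ) : ℝ) ≤ Y).card : ℝ) ≤ Y ^ a * (∑ t ∈ B, ((t : ℝ) ^ a)⁻¹) ^ K := by
  classical
  have e := sum_prod_piFinset (ι := Fin K) B (fun _ t => ((t : ℝ) ^ a)⁻¹)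
  rw [prod_const, card_univ, Fintype.card_fin] at e
  rw [← e, mul_sum, card_eq_sum_ones, Nat.cast_sum]
  refine (sum_le_sum ?_).trans (sum_le_sum_of_subset_of_nonneg (filter_subset _ _) ?_)
  · intro τ hτ
    obtain ⟨h1, h2⟩ := mem_filter.1 hτ
    have h3 : ∀ i, (0 : ℝ) < τ i := fun i => by
      exact_mod_cast hB _ (Fintype.mem_piFinset.1 h1 i)
    rw [prod_inv_distrib, Real.finsetProd_rpow _ _ (fun i _ => (h3 i).le), ← div_eq_mul_inv,
      Nat.cast_one, one_le_div (Real.rpow_pos_of_pos (prod_pos fun i _ => h3 i) _)]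
    push_cast at h2
    exact Real.rpow_le_rpow (prod_nonneg fun i _ => (h3 i).le) h2 ha
  · intro τ _ _
    exact mul_nonneg (by positivity) (prod_nonneg fun i _ => by positivity)

/-- the tail of the zeta sum -/
lemma tail (k M L : ℕ) (hk : 2 ≤ k)
    (h3 : (∑' t : ℕ, ((t : ℝ) ^ (1 + 1 / ((L : ℝ) + 1)))⁻¹) * (k + 1) ≤ (k : ℝ) ^ 2) :
    ∑ t ∈ insert 1 (Icc (k ^ (2 * (L + 1))) M), ((t : ℝ) ^ (1 + 2 / ((L : ℝ) + 1)))⁻¹ ≤
      1 + 1 / ((k : ℝ) + 1) := by
  have hk0 : (0 : ℝ) < k := by exact_mod_cast (by omega : 0 < k)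
  have hδ : (0 : ℝ) < 1 / ((L : ℝ) + 1) := by positivity
  have hs : Summable fun t : ℕ => ((t : ℝ) ^ (1 + 1 / ((L : ℝ) + 1)))⁻¹ :=
    Real.summable_nat_rpow_inv.2 (by linarith)
  have h1 : 1 < k ^ (2 * (L + 1)) := Nat.one_lt_pow (by omega) (by omega)
  rw [sum_insert (by simp; omega)]
  have a : ∑ t ∈ Icc (k ^ (2 * (L + 1))) M, ((t : ℝ) ^ (1 + 2 / ((L : ℝ) + 1)))⁻¹ ≤
      ∑ t ∈ Icc (k ^ (2 * (L + 1))) M,
        ((k : ℝ) ^ 2)⁻¹ * ((t : ℝ) ^ (1 + 1 / ((L : ℝ) + 1)))⁻¹ := by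
    refine sum_le_sum fun t ht => ?_
    have b := (mem_Icc.1 ht).1
    have t0 : (0 : ℝ) < t := by exact_mod_cast (by omega : 0 < t)
    have e : 1 + 2 / ((L : ℝ) + 1) = 1 / ((L : ℝ) + 1) + (1 + 1 / ((L : ℝ) + 1)) := by ring
    rw [e, Real.rpow_add t0, mul_inv]
    refine mul_le_mul_of_nonneg_right (inv_anti₀ (by positivity) ?_) (by positivity)
    rw [one_div, Real.le_rpow_inv_iff_of_pos (by positivity) t0.le (by positivity)]
    have e2 : ((L : ℝ) + 1) = ((L + 1 : ℕ) : ℝ) := by push_cast; ring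
    rw [e2, Real.rpow_natCast, ← pow_mul]
    exact_mod_cast b
  rw [← mul_sum] at a
  have b := hs.sum_le_tsum (Icc (k ^ (2 * (L + 1))) M) (fun t _ => by positivity)
  have c : ((k : ℝ) ^ 2)⁻¹ * (∑' t : ℕ, ((t : ℝ) ^ (1 + 1 / ((L : ℝ) + 1)))⁻¹) ≤
      1 / ((k : ℝ) + 1) := by
    rw [inv_mul_eq_div, div_le_div_iff₀ (by positivity) (by positivity), one_mul]
    exact h3
  have d := mul_le_mul_of_nonneg_left b (by positivity : (0 : ℝ) ≤ ((k : ℝ) ^ 2)⁻¹)
  simp only [Nat.cast_one, Real.one_rpow, inv_one]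
  linarith

/-- the count of long runs -/
lemma core (E L y W N k : ℕ) (hE : 2 ≤ E) (hy : 2 ≤ y) (hyk : y ≤ k) (hkN : k ≤ N)
    (hW : 2 * N ≤ y ^ W) (hπ : 8 * Nat.primeCounting k ≤ k)
    (h2 : 8 * ((2 * E) ^ ((L + 1) * (2 * (L + 1))) *
      (y + W + 1) ^ Nat.primeCounting E + W) ≤ k)
    (h3 : (∑' t : ℕ, ((t : ℝ) ^ (1 + 1 / ((L : ℝ) + 1)))⁻¹) * (k + 1) ≤ (k : ℝ) ^ 2)
    (A : Finset ℕ) (hA : ∀ n ∈ A, 1 ≤ n ∧ n ≤ N ∧
      Set.InjOn (fun m : ℕ => (Nat.divisors m).card) (Set.Icc n (n + k))) :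
    (A.card : ℝ) ≤ 3 * (2 * N : ℝ) ^ ((1 + 5 / ((L : ℝ) + 1)) / E) := by
  classical
  have hk2 : 2 ≤ k := hy.trans hyk
  choose! τ t1 t2 t3 t4 t5 using fun n (hn : n ∈ A) => family E L (2 * (L + 1)) y W N k n hE
    (by omega) hy hyk hkN hW (hA n hn).1 (hA n hn).2.1 hπ h2 (hA n hn).2.2
  have hN : (1 : ℝ) ≤ N := by exact_mod_cast (by omega : 1 ≤ N)
  have hE0 : (0 : ℝ) < E := by exact_mod_cast (by omega : 0 < E)
  have a : A.card ≤ ((Fintype.piFinset fun _ : Fin (k + 1) =>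
      insert 1 (Icc (k ^ (2 * (L + 1))) (2 * N))).filter
      fun τ => ((∏ i, τ i : ℕ) : ℝ) ≤ (2 * N : ℝ) ^ ((1 + 1 / ((L : ℝ) + 1)) / E)).card := by
    refine card_le_card_of_injOn τ ?_ ?_
    · intro n hn
      exact mem_coe.2 (mem_filter.2 ⟨Fintype.mem_piFinset.2 (t1 n hn), t2 n hn⟩)
    · intro n hn n' hn' e
      rcases le_total n n' with h | h
      · exact unique E N k n n' hE (τ n) (hA n hn).1 h (hA n' hn').2.1 (t3 n hn) (t4 n hn)
          (e ▸ t4 n' hn') (t5 n hn)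
      · exact (unique E N k n' n hE (τ n) (hA n' hn').1 h (hA n hn).2.1 (t3 n hn)
          (e ▸ t4 n' hn') (t4 n hn) (t5 n hn)).symm
  have b := rankin (k + 1) (insert 1 (Icc (k ^ (2 * (L + 1))) (2 * N))) (by
    intro t ht
    rcases mem_insert.1 ht with rfl | h
    · exact one_pos
    · exact lt_of_lt_of_le (by positivity) (mem_Icc.1 h).1) (1 + 2 / ((L : ℝ) + 1))
    ((2 * N : ℝ) ^ ((1 + 1 / ((L : ℝ) + 1)) / E)) (by positivity) (by positivity)
  have c := tail k (2 * N) L hk2 h3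
  have d : (∑ t ∈ insert 1 (Icc (k ^ (2 * (L + 1))) (2 * N)),
      ((t : ℝ) ^ (1 + 2 / ((L : ℝ) + 1)))⁻¹) ^ (k + 1) ≤ 3 := by
    refine (pow_le_pow_left₀ (sum_nonneg fun _ _ => by positivity) c _).trans ?_
    have e := Real.one_add_inv_pow_le_exp (n := k + 1)
    have f := Real.exp_one_lt_three
    push_cast at e
    rw [one_div]
    linarith
  have e : ((2 * N : ℝ) ^ ((1 + 1 / ((L : ℝ) + 1)) / E)) ^ (1 + 2 / ((L : ℝ) + 1)) ≤
      (2 * N : ℝ) ^ ((1 + 5 / ((L : ℝ) + 1)) / E) := by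
    rw [← Real.rpow_mul (by positivity)]
    refine Real.rpow_le_rpow_of_exponent_le (by linarith) ?_
    rw [div_mul_eq_mul_div]
    refine div_le_div_of_nonneg_right ?_ hE0.le
    have hδ : (0 : ℝ) < 1 / ((L : ℝ) + 1) := by positivity
    have hδ1 : 1 / ((L : ℝ) + 1) ≤ 1 := by
      rw [div_le_one (by positivity)]
      have : (0 : ℝ) ≤ L := by positivity
      linarith
    have e2 : 2 / ((L : ℝ) + 1) = 2 * (1 / ((L : ℝ) + 1)) := by ring
    have e5 : 5 / ((L : ℝ) + 1) = 5 * (1 / ((L : ℝ) + 1)) := by ring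
    rw [e2, e5]
    nlinarith
  have a' : (A.card : ℝ) ≤ _ := Nat.cast_le.2 a
  refine a'.trans (b.trans ?_)
  rw [mul_comm]
  exact mul_le_mul d e (by positivity) (by norm_num)

end Pool.Agent.MP_f6f0d4_nt.H39
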